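import Pool.Agent.Helper1.UQ.St1

/-!
# UQ module CND

Given the configuration on `C` (edges that become loops after the identification `σ`) the edge `e` is
closed in `B ∪ C` with at least the probability which it has in `B` after the identification.
-/

set_option autoImplicit false

open Finset

namespace Pool.Agent.Helper51.UQ

open Classical Pool.Agent.Helper30.RCU Pool.Agent.Helper1.UQ

universe u

variable {V V' ι : Type u}

lemma S_congr_sub {φ : ι → Sym2 V} {p : ι → ℝ} {q : ℝ} {E : Finset ι} {f g : Finset ι → ℝ}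
    (h : ∀ ω, ω ⊆ E → f ω = g ω) : S φ p q E f = S φ p q E g := by
  unfold S
  refine Finset.sum_congr rfl fun ω hω => ?_
  rw [h ω (mem_powerset.mp hω)]

lemma rk_union_loops {φ : ι → Sym2 V} (ω γ : Finset ι) (hγ : ∀ e ∈ γ, ∃ a, φ e = s(a, a)) :
    rk φ (ω ∪ γ) = rk φ ω := by
  induction γ using Finset.induction_on with
  | empty => simp
  | insert e γ _ ih =>
    have h1 := ih (fun e' h => hγ e' (mem_insert_of_mem h))
    obtain ⟨a, ha⟩ := hγ e (mem_insert_self _ _)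
    rw [union_insert, rk_insert_of_conn ha (Conn.refl _ _), h1]

/-- sum over the subsets of a disjoint union -/
lemma sum_powerset_union {B C : Finset ι} (hd : Disjoint B C) (F : Finset ι → ℝ) :
    ∑ ω ∈ (B ∪ C).powerset, F ω = ∑ γ ∈ C.powerset, ∑ ω ∈ B.powerset, F (ω ∪ γ) := by
  rw [← Finset.sum_product']
  refine Finset.sum_nbij' (i := fun ω => (ω ∩ C, ω ∩ B)) (j := fun x => x.2 ∪ x.1) ?_ ?_ ?_ ?_ ?_
  · intro ω _
    simp only [mem_product, mem_powerset]
    exact ⟨inter_subset_right, inter_subset_right⟩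
  · intro x hx
    simp only [mem_product, mem_powerset] at hx
    exact mem_powerset.mpr (union_subset_union hx.2 hx.1)
  · intro ω hω
    have h := mem_powerset.mp hω
    ext x
    simp only [mem_union, mem_inter]
    constructor
    · rintro (h1 | h1)
      · exact h1.1
      · exact h1.1
    · intro h1
      rcases mem_union.mp (h h1) with h2 | h2
      · exact Or.inl ⟨h1, h2⟩
      · exact Or.inr ⟨h1, h2⟩
  · rintro ⟨γ, ω⟩ hx
    simp only [mem_product, mem_powerset] at hx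
    have e1 : (ω ∪ γ) ∩ C = γ := by
      ext x
      simp only [mem_union, mem_inter]
      constructor
      · rintro ⟨h1 | h1, h2⟩
        · exact absurd h2 (Finset.disjoint_left.mp hd (hx.2 h1))
        · exact h1
      · exact fun h1 => ⟨Or.inr h1, hx.1 h1⟩
    have e2 : (ω ∪ γ) ∩ B = ω := by
      ext x
      simp only [mem_union, mem_inter]
      constructor
      · rintro ⟨h1 | h1, h2⟩
        · exact h1
        · exact absurd (hx.1 h1) (Finset.disjoint_left.mp hd h2)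
      · exact fun h1 => ⟨Or.inl h1, hx.2 h1⟩
    simp only [e1, e2]
  · intro ω hω
    have h := mem_powerset.mp hω
    congr 1
    ext x
    simp only [mem_union, mem_inter]
    constructor
    · intro h1
      rcases mem_union.mp (h h1) with h2 | h2
      · exact Or.inl ⟨h1, h2⟩
      · exact Or.inr ⟨h1, h2⟩
    · rintro (h1 | h1)
      · exact h1.1
      · exact h1.1

/-- the density of the conditional measure -/
noncomputable def Nf (φ : ι → Sym2 V) (σ : V → V') (q : ℝ) (γ ω : Finset ι) : ℝ :=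
  q⁻¹ ^ (rk φ (ω ∪ γ) - rk (cm φ σ) (ω ∪ γ))

lemma Nf_anti (hR : StRKM.{u}) (φ : ι → Sym2 V) (σ : V → V') {q : ℝ} (hq : 1 ≤ q)
    (γ : Finset ι) : Antitone (Nf φ σ q γ) := by
  intro ω ω' h
  unfold Nf
  have h1 := (hR V V' ι φ σ).2.1 (ω ∪ γ) (ω' ∪ γ) (union_subset_union_left h)
  have hq0 : (0 : ℝ) ≤ q⁻¹ := by positivity
  have hq1 : q⁻¹ ≤ 1 := inv_le_one_of_one_le₀ hq
  exact pow_le_pow_of_le_one hq0 hq1 h1

lemma S_split (hR : StRKM.{u}) (φ : ι → Sym2 V) (σ : V → V') (p : ι → ℝ) (q : ℝ)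
    {B C : Finset ι} (hd : Disjoint B C) (hC : ∀ e ∈ C, ∃ a, (φ e).map σ = s(a, a))
    (h : Finset ι → ℝ) :
    S φ p q (B ∪ C) h = ∑ γ ∈ C.powerset, ((∏ e ∈ γ, p e) * (∏ e ∈ C \ γ, (1 - p e))) *
      S (cm φ σ) p q B (fun ω => Nf φ σ q γ ω * h (ω ∪ γ)) := by
  unfold S
  rw [sum_powerset_union hd]
  refine Finset.sum_congr rfl fun γ hγ => ?_
  rw [Finset.mul_sum]
  refine Finset.sum_congr rfl fun ω hω => ?_
  have hγC := mem_powerset.mp hγ
  have hωB := mem_powerset.mp hω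
  have hωγ : Disjoint ω γ := Finset.disjoint_of_subset_left hωB
    (Finset.disjoint_of_subset_right hγC hd)
  have e1 : (B ∪ C) \ (ω ∪ γ) = (B \ ω) ∪ (C \ γ) := by
    ext x
    simp only [mem_sdiff, mem_union]
    constructor
    · rintro ⟨h1 | h1, h2⟩
      · exact Or.inl ⟨h1, fun h3 => h2 (Or.inl h3)⟩
      · exact Or.inr ⟨h1, fun h3 => h2 (Or.inr h3)⟩
    · rintro (⟨h1, h2⟩ | ⟨h1, h2⟩)
      · refine ⟨Or.inl h1, ?_⟩
        rintro (h3 | h3)
        · exact h2 h3
        · exact Finset.disjoint_left.mp hd h1 (hγC h3)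
      · refine ⟨Or.inr h1, ?_⟩
        rintro (h3 | h3)
        · exact Finset.disjoint_left.mp hd (hωB h3) h1
        · exact h2 h3
  have hd2 : Disjoint (B \ ω) (C \ γ) := Finset.disjoint_of_subset_left sdiff_subset
    (Finset.disjoint_of_subset_right sdiff_subset hd)
  have e2 : rk (cm φ σ) (ω ∪ γ) = rk (cm φ σ) ω := rk_union_loops ω γ fun e he => hC e (hγC he)
  have e3 : q⁻¹ ^ rk φ (ω ∪ γ) = q⁻¹ ^ rk (cm φ σ) ω * Nf φ σ q γ ω := by
    unfold Nf
    rw [← pow_add, ← e2]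
    congr 1
    have := (hR V V' ι φ σ).1 (ω ∪ γ)
    omega
  unfold wt
  rw [e1, Finset.prod_union hωγ, Finset.prod_union hd2, e3]
  ring

theorem hCND (hR : StRKM.{u}) : StCND.{u} := by
  intro V V' ι φ σ p q hp hp1 hq B C hd hC e heB k hk0 hkC
  set α := ex (cm φ σ) p q B (fun ω => 1 - oe e ω) with hα
  have hoe0 : ∀ ω : Finset ι, 0 ≤ oe e ω := fun ω => by unfold oe; split_ifs <;> simp
  have hoem : Monotone (oe (ι := ι) e) := by
    intro ω ω' h
    unfold oe
    split_ifs with h1 h2 h2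
    · exact le_rfl
    · exact absurd (h h1) h2
    · exact zero_le_one
    · exact le_rfl
  have hone := S_one_pos (φ := cm φ σ) hp hp1 hq B
  -- the inequality for every `γ`
  have key : ∀ γ : Finset ι, α * S (cm φ σ) p q B (Nf φ σ q γ) ≤
      S (cm φ σ) p q B (fun ω => Nf φ σ q γ ω * (1 - oe e ω)) := by
    intro γ
    have h1 := ex_fkg_anti (φ := cm φ σ) hp hp1 hq B hoe0 (Nf_anti hR φ σ hq γ) hoem
    have h2 : α = 1 - ex (cm φ σ) p q B (oe e) := by
      rw [hα, ex_sub, ex_const hp hp1 hq]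
    have h3 : ex (cm φ σ) p q B (fun ω => Nf φ σ q γ ω * (1 - oe e ω)) =
        ex (cm φ σ) p q B (Nf φ σ q γ) - ex (cm φ σ) p q B (fun ω => Nf φ σ q γ ω * oe e ω) := by
      rw [← ex_sub]
      congr 1
      funext ω
      ring
    have h4 : α * ex (cm φ σ) p q B (Nf φ σ q γ) ≤
        ex (cm φ σ) p q B (fun ω => Nf φ σ q γ ω * (1 - oe e ω)) := by
      rw [h2, h3]
      linarith
    have h5 : ∀ f : Finset ι → ℝ, S (cm φ σ) p q B f =
        ex (cm φ σ) p q B f * S (cm φ σ) p q B (fun _ => 1) := by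
      intro f
      unfold ex
      field_simp
    rw [h5 (Nf φ σ q γ), h5 (fun ω => Nf φ σ q γ ω * (1 - oe e ω)), ← mul_assoc]
    exact mul_le_mul_of_nonneg_right h4 hone.le
  have hU := S_one_pos (φ := φ) hp hp1 hq (B ∪ C)
  unfold ex
  rw [← mul_div_assoc]
  refine div_le_div_of_nonneg_right ?_ hU.le
  rw [S_split hR φ σ p q hd hC k, S_split hR φ σ p q hd hC (fun ω => (1 - oe e ω) * k ω),
    Finset.mul_sum]
  refine Finset.sum_le_sum fun γ hγ => ?_
  have hγC := mem_powerset.mp hγ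
  have hkk : ∀ ω, ω ⊆ B → k (ω ∪ γ) = k γ := by
    intro ω hω
    rw [hkC (ω ∪ γ)]
    congr 1
    ext x
    simp only [mem_union, mem_inter]
    constructor
    · rintro ⟨h1 | h1, h2⟩
      · exact absurd h2 (Finset.disjoint_left.mp hd (hω h1))
      · exact h1
    · exact fun h1 => ⟨Or.inr h1, hγC h1⟩
  have heγ : e ∉ γ := fun h => Finset.disjoint_left.mp hd heB (hγC h)
  have hoo : ∀ ω : Finset ι, oe e (ω ∪ γ) = oe e ω := by
    intro ω
    unfold oe
    simp [heγ]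
  have e1 : S (cm φ σ) p q B (fun ω => Nf φ σ q γ ω * k (ω ∪ γ)) =
      k γ * S (cm φ σ) p q B (Nf φ σ q γ) := by
    rw [← S_mul]
    refine S_congr_sub fun ω hω => ?_
    rw [hkk ω hω]
    ring
  have e2 : S (cm φ σ) p q B (fun ω => Nf φ σ q γ ω * ((1 - oe e (ω ∪ γ)) * k (ω ∪ γ))) =
      k γ * S (cm φ σ) p q B (fun ω => Nf φ σ q γ ω * (1 - oe e ω)) := by
    rw [← S_mul]
    refine S_congr_sub fun ω hω => ?_
    rw [hkk ω hω, hoo]
    ring
  have e3 : S (cm φ σ) p q B (fun ω => Nf φ σ q γ ω * (fun ω => (1 - oe e ω) * k ω) (ω ∪ γ)) =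
      k γ * S (cm φ σ) p q B (fun ω => Nf φ σ q γ ω * (1 - oe e ω)) := e2
  rw [e1, e3]
  have hc0 : 0 ≤ (∏ e ∈ γ, p e) * (∏ e ∈ C \ γ, (1 - p e)) :=
    mul_nonneg (Finset.prod_nonneg fun e _ => hp e)
      (Finset.prod_nonneg fun e _ => sub_nonneg.mpr (hp1 e))
  have h6 := mul_le_mul_of_nonneg_left (key γ) (mul_nonneg hc0 (hk0 γ))
  calc α * ((∏ e ∈ γ, p e) * (∏ e ∈ C \ γ, (1 - p e)) * (k γ * S (cm φ σ) p q B (Nf φ σ q γ)))
      = (∏ e ∈ γ, p e) * (∏ e ∈ C \ γ, (1 - p e)) * k γ *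
          (α * S (cm φ σ) p q B (Nf φ σ q γ)) := by ring
    _ ≤ (∏ e ∈ γ, p e) * (∏ e ∈ C \ γ, (1 - p e)) * k γ *
          S (cm φ σ) p q B (fun ω => Nf φ σ q γ ω * (1 - oe e ω)) := h6
    _ = (∏ e ∈ γ, p e) * (∏ e ∈ C \ γ, (1 - p e)) *
          (k γ * S (cm φ σ) p q B (fun ω => Nf φ σ q γ ω * (1 - oe e ω))) := by ring

end Pool.Agent.Helper51.UQ
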